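import Pool.Agent.Helper70.EH.Goals2

/-!
# EH part 2, packet MX
-/

set_option autoImplicit false

namespace Pool.Agent.Helper72.EH.MX

open Pool.Agent.Helper70.EH

theorem gs_eq {r : ℕ} (φ : ℕ → ℝ) (d : ℕ) (x : Fin r → ℝ) :
    gs φ d x = ∑ l ∈ Finset.finsuppAntidiag Finset.univ d, ∏ i, φ (l i) * x i ^ (l i) := by
  unfold gs
  rw [PowerSeries.coeff_prod]
  refine Finset.sum_congr rfl fun l _ => Finset.prod_congr rfl fun i _ => ?_
  rw [PowerSeries.coeff_mk]

theorem gs_cont {r : ℕ} (φ : ℕ → ℝ) (d : ℕ) : Continuous fun x : Fin r → ℝ => gs φ d x := by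
  simp only [gs_eq]
  refine continuous_finsetSum _ fun l _ => continuous_finsetProd _ fun i _ => ?_
  exact continuous_const.mul ((continuous_apply i).pow _)

theorem gs_const {r : ℕ} (φ : ℕ → ℝ) (d : ℕ) (c : ℝ) :
    gs φ d (fun _ : Fin r => c) = c ^ d * gs φ d (fun _ : Fin r => (1 : ℝ)) := by
  rw [gs_eq, gs_eq, Finset.mul_sum]
  refine Finset.sum_congr rfl fun l hl => ?_
  rw [Finset.mem_finsuppAntidiag] at hl
  have h : ∑ i, l i = d := hl.1
  rw [← h, ← Finset.prod_pow_eq_pow_sum, ← Finset.prod_mul_distrib]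
  refine Finset.prod_congr rfl fun i _ => ?_
  rw [one_pow]
  ring

theorem t (hPS : G_PS) : G_MX := by
  intro r d x hr hd hx
  have hne : (Finset.univ : Finset (Fin r)).Nonempty := ⟨⟨0, hr⟩, Finset.mem_univ _⟩
  obtain ⟨i0, -, hi0⟩ := Finset.exists_min_image Finset.univ x hne
  obtain ⟨j0, -, hj0⟩ := Finset.exists_max_image Finset.univ x hne
  have hcont : Continuous fun y : Fin r → ℝ => df d y := by
    unfold df
    exact (continuous_const.mul (gs_cont ph d)).sub (continuous_const.mul (gs_cont _ d))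
  have hK : IsCompact (Set.univ.pi fun _ : Fin r => Set.Icc (x i0) (x j0)) :=
    isCompact_univ_pi fun _ => isCompact_Icc
  have hxK : x ∈ Set.univ.pi fun _ : Fin r => Set.Icc (x i0) (x j0) :=
    fun i _ => ⟨hi0 i (Finset.mem_univ i), hj0 i (Finset.mem_univ i)⟩
  obtain ⟨y, hyK, hy⟩ := hK.exists_isMaxOn ⟨x, hxK⟩ hcont.continuousOn
  have step : ∀ w ∈ Set.univ.pi fun _ : Fin r => Set.Icc (x i0) (x j0),
      (∃ i j, w i ≠ w j) → ∃ w' ∈ Set.univ.pi fun _ : Fin r => Set.Icc (x i0) (x j0),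
        df d w < df d w' := by
    rintro w hw ⟨i, j, hij⟩
    have hwl : ∀ l, w l ∈ Set.Icc (x i0) (x j0) := fun l => hw l (Set.mem_univ l)
    have hpos : ∀ l, 0 < w l := fun l => lt_of_lt_of_le (hx i0) (hwl l).1
    have hne : i ≠ j := fun h => hij (by rw [h])
    obtain ⟨z, hz1, hz2, hz3⟩ := hPS r d w i j hd hpos hne hij
    refine ⟨_, ?_, hz3⟩
    have hzI : z ∈ Set.Icc (x i0) (x j0) :=
      ⟨le_trans (le_min (hwl i).1 (hwl j).1) hz1, le_trans hz2 (max_le (hwl i).2 (hwl j).2)⟩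
    intro l _
    by_cases h1 : l = j
    · rw [h1, Function.update_self]
      exact hzI
    · rw [Function.update_of_ne h1]
      by_cases h2 : l = i
      · rw [h2, Function.update_self]
        exact hzI
      · rw [Function.update_of_ne h2]
        exact hwl l
  have hy0 : df d y = 0 := by
    have hc : ∀ i j, y i = y j := by
      by_contra hcon
      push Not at hcon
      obtain ⟨i, j, hij⟩ := hcon
      obtain ⟨w', hw', hlt⟩ := step y hyK ⟨i, j, hij⟩
      exact absurd (hy hw') (not_le.mpr hlt)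
    have hyc : y = fun _ => y ⟨0, hr⟩ := funext fun i => hc i _
    rw [hyc]
    unfold df
    rw [gs_const ph d (y ⟨0, hr⟩), gs_const (fun _ => 1) d (y ⟨0, hr⟩)]
    ring
  have hle : ∀ w ∈ Set.univ.pi fun _ : Fin r => Set.Icc (x i0) (x j0), df d w ≤ 0 := by
    intro w hw
    rw [← hy0]
    exact hy hw
  refine ⟨hle x hxK, fun h => ?_⟩
  obtain ⟨w', hw', hlt⟩ := step x hxK h
  exact lt_of_lt_of_le hlt (hle w' hw')

end Pool.Agent.Helper72.EH.MX
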